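import Pool.Agent.TH745.MN.Tb

/-!
# MN-11: leading coefficient of a polynomial at several nodes (written by helper713)
-/

set_option autoImplicit false

namespace Pool.Agent.TH713.MN

open Pool.Agent.TH745.MN Pool.Agent.TH603.EL Pool.Agent.TH603.EL.Scal2 Pool.Agent.TH793.NG
  Pool.Agent.TH176.Nag Pool.Agent.TH603.Sur

section
variable {F : Type} [Field F]

theorem EV_comp_hR (R : Polynomial (HK F)) (x y : HR F) (A : PXY F) (n : ℕ)
    (hn : A.natDegree < n) :
    EV x y (A.comp (hR R)) = ∑ j ∈ Finset.range n, evA x (A.coeff j) * EV x y (hR R) ^ j := by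
  unfold Polynomial.comp
  rw [Polynomial.hom_eval₂, Polynomial.eval₂_eq_sum_range' _ hn]
  refine Finset.sum_congr rfl fun j _ => ?_
  rw [RingHom.comp_apply, EV_C]

theorem EV_hR (R : Polynomial (HK F)) (x y : HR F) : EV x y (hR R) = y ^ 2 - evA x R := by
  unfold hR
  rw [EV_sub, EV_pow, EV_X, EV_C]

theorem tz_pow (κ : ℝ) (j : ℕ) : tz F κ 0 1 ^ j = tz F (j * κ) 0 j := by
  induction j with
  | zero =>
    simp only [pow_zero, Nat.cast_zero, zero_mul]
    rfl
  | succ j ih =>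
    rw [pow_succ, ih, tz_mul]
    congr 1 <;> (push_cast; ring)

theorem coeff_unit {U : HR F} {u : F} (hl : Low U 0) (hu : U.coeff 0 = algebraMap F (Pool.Agent.TH603.EL.Lau F) u)
    (j : ℕ) : Low (U ^ j) 0 ∧ (U ^ j).coeff 0 = algebraMap F (Pool.Agent.TH603.EL.Lau F) (u ^ j) := by
  refine ⟨hl.pow_zero' j, ?_⟩
  have := hl.coeff_pow j
  rw [mul_zero, hu] at this
  rw [this, map_pow]

/-- the leading coefficient of a nonzero polynomial of weight at most `D` at all the nodes, from the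
case of the sections `A(x) + B(x) y` -/
theorem nod_lead_of [CharZero F] {β : Type} [Fintype β] [DecidableEq β]
    {R : Polynomial (HK F)} {Rb : Polynomial F} {M : ℕ}
    (hRb : Rb.natDegree + 1 ≤ 2 * M) {κ : ℝ} {a b s : β → ℝ}
    {c : β → F} {xx yy U : β → HR F}
    (hT : ∀ i, Tb R Rb (a i) (b i) (s i) κ (c i) (xx i) (yy i) (U i))
    (hG : ∀ (m : ℕ) (ω : ℝ), 0 < ω → 2 * m + 1 ≤ ∑ i, (⌈ω / a i⌉₊ + ⌈ω / b i⌉₊) →
      (∀ i, ω ≤ s i) → ∀ A B : Polynomial (HK F), A ≠ 0 ∨ B ≠ 0 → A.natDegree ≤ m →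
      (B = 0 ∨ 2 * B.natDegree + Rb.natDegree ≤ 2 * m) →
      ∃ n : ℝ, (∀ i, Low (evA (xx i) A + evA (xx i) B * yy i) n) ∧
        (∃ i k j, cf (evA (xx i) A + evA (xx i) B * yy i) n k j ≠ 0) ∧
        ∀ i k j, cf (evA (xx i) A + evA (xx i) B * yy i) n k j ≠ 0 →
          j = 0 ∧ a i * k < ω ∧ -(b i * k) < ω)
    {ω : ℕ → ℝ}
    (hω : Thr a b ω) {D : ℕ} (hs : ∀ i, ∀ W ≤ D, ω W ≤ s i) {p : PXY F} (hp : p ≠ 0)
    (hg : Gd R M D p) :
    ∃ n : ℝ, (∃ i k j, cf (EV (xx i) (yy i) p) n k j ≠ 0) ∧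
      ∀ i k j, cf (EV (xx i) (yy i) p) n k j ≠ 0 → (k, j) ∈ SS M D (a i) (b i) ω := by
  classical
  obtain ⟨A, B, hA, hB, rfl⟩ := hg
  obtain ⟨N, hNA, hNB⟩ : ∃ N, A.natDegree < N ∧ B.natDegree < N :=
    ⟨max A.natDegree B.natDegree + 1, by omega, by omega⟩
  obtain ⟨G, hGd⟩ : ∃ G : β → ℕ → HR F, ∀ i j, G i j = evA (xx i) (A.coeff j) +
      evA (xx i) (B.coeff j) * yy i := ⟨_, fun _ _ => rfl⟩
  have hval : ∀ i, EV (xx i) (yy i) (A.comp (hR R) + B.comp (hR R) * Polynomial.X) =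
      ∑ j ∈ Finset.range N, tz F (j * κ) 0 j * (G i j * U i ^ j) := by
    intro i
    rw [map_add, map_mul, EV_X, EV_comp_hR _ _ _ A N hNA, EV_comp_hR _ _ _ B N hNB,
      Finset.sum_mul, ← Finset.sum_add_distrib]
    refine Finset.sum_congr rfl fun j _ => ?_
    rw [EV_hR, (hT i).curve, mul_pow, tz_pow, hGd i j]
    ring
  simp only [hval]
  -- the indices with nonzero sections
  obtain ⟨J, hJ⟩ : ∃ J : Finset ℕ,
      J = (Finset.range N).filter fun j => A.coeff j ≠ 0 ∨ B.coeff j ≠ 0 := ⟨_, rfl⟩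
  have hM1 : 1 ≤ M := by omega
  have hJm : ∀ j ∈ J, 2 * M * j ≤ D := by
    intro j hj
    rw [hJ, Finset.mem_filter] at hj
    have hM0 : (0 : ℤ) ≤ M := Int.natCast_nonneg _
    have : (2 * M * j : ℤ) ≤ D := by
      rcases hj.2 with h | h
      · rcases hA j with h1 | h1
        · exact absurd h1 h
        · have : (0 : ℤ) ≤ ((A.coeff j).natDegree : ℤ) := Int.natCast_nonneg _
          linarith
      · rcases hB j with h1 | h1
        · exact absurd h1 h
        · have : (0 : ℤ) ≤ ((B.coeff j).natDegree : ℤ) := Int.natCast_nonneg _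
          linarith
    exact_mod_cast this
  have hlead : ∀ j ∈ J, ∃ n : ℝ, (∀ i, Low (G i j) n) ∧ (∃ i k j', cf (G i j) n k j' ≠ 0) ∧
      ∀ i k j', cf (G i j) n k j' ≠ 0 → j' = 0 ∧ a i * k < ω (D - 2 * M * j) ∧
        -(b i * k) < ω (D - 2 * M * j) := by
    intro j hj
    have hm := hJm j hj
    obtain ⟨W, hW⟩ : ∃ W : ℕ, W = D - 2 * M * j := ⟨_, rfl⟩
    have hWD : W + 2 * M * j = D := by omega
    have hWDz : (W : ℤ) + 2 * M * j = D := by exact_mod_cast hWD
    rw [hJ, Finset.mem_filter] at hj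
    obtain ⟨n, h1, h2, h4⟩ := hG W (ω W) (hω W).1 (hω W).2 (fun i => hs i W (by omega))
      (A.coeff j) (B.coeff j) hj.2 (by
        rcases hA j with h | h
        · rw [h]; simp
        · have : ((A.coeff j).natDegree : ℤ) ≤ W := by linarith
          exact_mod_cast this) (by
        rcases hB j with h | h
        · left; exact h
        · right
          have h3 : ((B.coeff j).natDegree : ℤ) + M ≤ W := by linarith
          have h5 : (B.coeff j).natDegree + M ≤ W := by exact_mod_cast h3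
          omega)
    refine ⟨n, fun i => by rw [hGd i j]; exact h1 i, ?_, ?_⟩
    · obtain ⟨i, k, j', h5⟩ := h2
      exact ⟨i, k, j', by rw [hGd i j]; exact h5⟩
    · intro i k j' hij
      rw [hGd i j] at hij
      rw [← hW]
      exact h4 i k j' hij
  choose! nu hnu1 hnu2 hnu3 using hlead
  have hJne : J.Nonempty := by
    by_contra hcon
    rw [Finset.not_nonempty_iff_eq_empty] at hcon
    apply hp
    have hz : ∀ j, A.coeff j = 0 ∧ B.coeff j = 0 := by
      intro j
      by_cases hj : j < N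
      · have : j ∉ J := by rw [hcon]; simp
        rw [hJ, Finset.mem_filter] at this
        push Not at this
        exact this (Finset.mem_range.2 hj)
      · exact ⟨Polynomial.coeff_eq_zero_of_natDegree_lt (by omega),
          Polynomial.coeff_eq_zero_of_natDegree_lt (by omega)⟩
    have hA0 : A = 0 := by ext1 j; simpa using (hz j).1
    have hB0 : B = 0 := by ext1 j; simpa using (hz j).2
    rw [hA0, hB0]; simp
  obtain ⟨j0, hj0, hmin⟩ := Finset.exists_min_image J (fun j => nu j + j * κ) hJne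
  obtain ⟨n0, hn0⟩ : ∃ n0, n0 = nu j0 + j0 * κ := ⟨_, rfl⟩
  -- the coefficients at the level `nu j`
  have hcoef : ∀ (i : β) (j : ℕ), j ∈ J → ∃ v : F, v ≠ 0 ∧ ∀ k l : ℤ,
      cf (G i j * U i ^ j) (nu j) k l = v * cf (G i j) (nu j) k l := by
    intro i j hj
    obtain ⟨u, hu0, hu⟩ := (hT i).cU
    obtain ⟨hU1, hU2⟩ := coeff_unit (hT i).lowU hu j
    refine ⟨u ^ j, pow_ne_zero _ hu0, fun k l => ?_⟩
    have h2 := (hnu1 j hj i).coeff_mul hU1
    rw [add_zero, hU2] at h2
    unfold cf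
    rw [h2, mul_comm, ← Algebra.smul_def, AddMonoidAlgebra.coeff_smul, Finsupp.smul_apply,
      smul_eq_mul]
  -- the terms
  have hterm : ∀ i, ∀ j ∈ Finset.range N, ∀ k j' : ℤ,
      cf (tz F (j * κ) 0 j * (G i j * U i ^ j)) n0 k j' ≠ 0 →
      j ∈ J ∧ nu j + j * κ = n0 ∧ j' = j ∧ cf (G i j) (nu j) k 0 ≠ 0 := by
    intro i j hj k j' h
    rw [cf_tz_mul] at h
    have hjJ : j ∈ J := by
      by_contra hcon
      rw [hJ, Finset.mem_filter] at hcon
      push Not at hcon
      obtain ⟨hA0, hB0⟩ := hcon hj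
      apply h
      rw [hGd i j, hA0, hB0]
      simp [evA, cf_zero]
    obtain ⟨u, hu0, hu⟩ := (hT i).cU
    obtain ⟨hU1, -⟩ := coeff_unit (hT i).lowU hu j
    have hlow := (hnu1 j hjJ i).mul hU1
    rw [add_zero] at hlow
    have hle := hmin j hjJ
    have heq : nu j + j * κ = n0 := by
      apply le_antisymm
      · by_contra hlt
        apply h
        unfold cf
        rw [hlow _ (by linarith)]
        simp
      · rw [hn0]; exact hle
    have h1 : n0 - j * κ = nu j := by linarith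
    rw [h1] at h
    obtain ⟨v, hv0, hv⟩ := hcoef i j hjJ
    rw [hv] at h
    have h4 := right_ne_zero_of_mul h
    have h5 := hnu3 j hjJ _ _ _ h4
    have h6 : j' = j := by have := h5.1; omega
    refine ⟨hjJ, heq, h6, ?_⟩
    rw [h6, sub_self, sub_zero] at h4
    exact h4
  refine ⟨n0, ?_, ?_⟩
  · obtain ⟨i0, k0, j1, h1⟩ := hnu2 j0 hj0
    have h2 := (hnu3 j0 hj0 _ _ _ h1).1
    rw [h2] at h1
    refine ⟨i0, k0, j0, ?_⟩
    rw [cf_sum, Finset.sum_eq_single j0]
    · rw [cf_tz_mul]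
      have h3 : n0 - j0 * κ = nu j0 := by linarith
      obtain ⟨v, hv0, hv⟩ := hcoef i0 j0 hj0
      rw [h3, sub_self, sub_zero, hv]
      exact mul_ne_zero hv0 h1
    · intro j hj hne
      by_contra hcon
      have := (hterm i0 j hj _ _ hcon).2.2.1
      apply hne
      exact_mod_cast this.symm
    · intro h
      exfalso
      apply h
      rw [hJ] at hj0
      exact (Finset.mem_filter.1 hj0).1
  · intro i k j' h
    rw [cf_sum] at h
    obtain ⟨j, hj, hj'⟩ := Finset.exists_ne_zero_of_sum_ne_zero h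
    obtain ⟨h1, h2, h3, h4⟩ := hterm i j hj _ _ hj'
    obtain ⟨_, h5, h6⟩ := hnu3 j h1 _ _ _ h4
    have h7 := hJm j h1
    rw [h3]
    refine ⟨Int.natCast_nonneg _, ?_, ?_, ?_⟩
    · dsimp only
      exact_mod_cast h7
    · dsimp only
      rw [Int.toNat_natCast]
      exact h5
    · dsimp only
      rw [Int.toNat_natCast]
      exact h6

end

end Pool.Agent.TH713.MN
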